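import Mathlib

set_option autoImplicit false

namespace Pool.Agent.Results.MP_7489b4_an.No

open Filter Topology MeasureTheory Real Set

noncomputable def lo (f : ℝ → ℝ) (x : ℝ) : ℝ := min (f x) (liminf f (𝓝[≠] x))

noncomputable def up (f : ℝ → ℝ) (x : ℝ) : ℝ := max (f x) (limsup f (𝓝[≠] x))

/-- the completed graph, with the first coordinate divided by `α` (so that `ρ_α` becomes the max metric) -/
def graph (α : ℝ) (f : ℝ → ℝ) : Set (ℝ × ℝ) := {p | lo f (α * p.1) ≤ p.2 ∧ p.2 ≤ up f (α * p.1)}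

noncomputable def r (α : ℝ) (f g : ℝ → ℝ) : ENNReal := Metric.hausdorffEDist (graph α f) (graph α g)

noncomputable def W (n : ℕ) (f : ℝ → ℝ) (x : ℝ) : ℝ := √(n / π) * ∫ s, f (x + s) * exp (-n * s ^ 2)

noncomputable def P (ρ : ℝ) (f : ℝ → ℝ) (x : ℝ) : ℝ :=
  1 / (2 * π) * ∫ s in -π..π, f (x + s) * ((1 - ρ ^ 2) / (1 + ρ ^ 2 - 2 * ρ * cos s))

noncomputable def V (n : ℕ) (f : ℝ → ℝ) (x : ℝ) : ℝ :=
  (n.factorial : ℝ) ^ 2 / (2 * n).factorial * (1 / (2 * π) * ∫ s in -π..π, f (x + s) * (2 * cos (s / 2)) ^ (2 * n))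

lemma side {u K : ℝ → ℝ} {B x x0 δ c h A ε : ℝ} (mu : AEMeasurable u) (bu : ∀ t, |u t| ≤ B)
    (pu : ∀ t, |t - x0| < 2 * δ → 0 ≤ u t) (K0 : ∀ s, 0 ≤ K s) (iK : Integrable K) (h0 : 0 < h)
    (hx : |x - x0| + h ≤ A * h) (hA : A * h < δ) (low : ∀ s, |s| ≤ A * h → c ≤ h * K s)
    (tl : ∀ s, δ ≤ |s| → K s ≤ ε * exp (-1 * s ^ 2)) (e0 : 0 ≤ ε) :
    c / h * (∫ t in Icc (x0 - h) (x0 + h), u t) - B * ε * √π ≤ ∫ s, u (x + s) * K s := by
  have B0 : 0 ≤ B := (abs_nonneg _).trans (bu 0)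
  have i1 : Integrable fun s => (Icc (x0 - h) (x0 + h)).indicator u (x + s) :=
    ((integrable_indicator_iff measurableSet_Icc).2 (Measure.integrableOn_of_bounded (M := B) (by simp)
      mu.aestronglyMeasurable (.of_forall bu))).comp_add_left x
  have i2 := integrable_exp_neg_mul_sq one_pos
  rw [← integral_indicator measurableSet_Icc, ← integral_add_left_eq_self _ x, ← div_one π, ← integral_gaussian,
    ← integral_const_mul, ← integral_const_mul, ← integral_sub (i1.const_mul _) (i2.const_mul _)]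
  refine integral_mono ((i1.const_mul _).sub (i2.const_mul _)) (iK.bdd_mul (c := B)
    (mu.comp_quasiMeasurePreserving (measurePreserving_add_left volume x).quasiMeasurePreserving).aestronglyMeasurable (.of_forall fun _ => bu _)) fun s => ?_
  have p : 0 ≤ B * ε * exp (-1 * s ^ 2) := by positivity
  have a := abs_le.1 (le_refl |x - x0|)
  by_cases m : x + s ∈ Icc (x0 - h) (x0 + h)
  · have : |s| ≤ A * h := abs_le.2 ⟨by linarith [m.1], by linarith [m.2]⟩
    have := mul_le_mul_of_nonneg_left ((div_le_iff₀' h0).2 (low s this))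
      (pu (x + s) (abs_lt.2 ⟨by linarith [m.1], by linarith [m.2]⟩))
    simp only [indicator_of_mem m]
    linarith
  simp only [indicator_of_notMem m]
  rcases lt_or_ge |s| δ with d | d
  · have := mul_nonneg (pu (x + s) (by rw [abs_lt] at d ⊢; constructor <;> linarith)) (K0 s)
    linarith
  · have := mul_le_mul_of_nonneg_left (tl s d) B0
    have := mul_le_mul_of_nonneg_right (abs_le.1 (bu (x + s))).1 (K0 s)
    linarith

lemma core {ι : Type} (l : Filter ι) [l.NeBot] (K : ι → ℝ → ℝ) (h : ι → ℝ) (hh : Tendsto h l (𝓝[>] 0))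
    (K0 : ∀ᶠ i in l, (∀ s, 0 ≤ K i s) ∧ Integrable (K i) ∧ ∫ s, K i s = 1)
    (tl : ∀ δ > 0, ∀ ε > 0, ∀ᶠ i in l, ∀ s, δ ≤ |s| → K i s ≤ ε * exp (-1 * s ^ 2))
    (low : ∀ A > 0, ∃ c > 0, ∀ᶠ i in l, ∀ s, |s| ≤ A * h i → c ≤ h i * K i s)
    {α B C : ℝ} (α0 : 0 < α) {f : ℝ → ℝ} (mf : AEMeasurable f) (bf : ∀ x, |f x| ≤ B)
    (ap : ∀ᶠ i in l, r α f (fun x => ∫ s, f (x + s) * K i s) ≤ .ofReal (C * h i)) : Continuous f := by
  refine continuous_iff_continuousAt.2 fun x0 => ?_
  have ev : ∀ η > 0, ∀ᶠ x in 𝓝 x0, lo f x0 - η < f x ∧ f x < up f x0 + η := fun η e => by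
    rw [← nhdsNE_sup_pure, eventually_sup, eventually_pure]
    exact ⟨(eventually_lt_of_lt_liminf ((sub_lt_self _ e).trans_le (min_le_right _ _))
      (isBoundedUnder_of ⟨-B, fun x => (abs_le.1 (bf x)).1⟩)).and (eventually_lt_of_limsup_lt
        ((le_max_right _ _).trans_lt (lt_add_of_pos_right _ e)) (isBoundedUnder_of ⟨B, fun x => (abs_le.1 (bf x)).2⟩)),
      (sub_lt_self _ e).trans_le (min_le_left _ _), (le_max_left _ _).trans_lt (lt_add_of_pos_right _ e)⟩
  have lu : lo f x0 ≤ f x0 ∧ f x0 ≤ up f x0 := ⟨min_le_left _ _, le_max_left _ _⟩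
  suffices up f x0 ≤ lo f x0 from Metric.tendsto_nhds.2 fun η e => (ev η e).mono fun x hx => by
    rw [Real.dist_eq, abs_lt]; constructor <;> linarith
  obtain ⟨c, c0, low⟩ := low (α * (|C| + 1) + 2) (by positivity)
  refine (mul_le_mul_iff_right₀ c0).1 (le_of_forall_pos_le_add fun η e => ?_)
  obtain ⟨δ, d0, hδ⟩ := Metric.eventually_nhds_iff.1 (ev (η / 4) (by positivity))
  set M := up f x0
  set m := lo f x0
  let D := B + |M| + |m| + η
  have D0 : 0 < D := by have := (abs_nonneg _).trans (bf 0); positivity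
  have sm : ∀ a b : ℝ, 0 < b → ∀ᶠ i in l, a * h i < b := fun a b b0 =>
    ((hh.mono_right nhdsWithin_le_nhds).const_mul a).eventually_lt_const (by simpa)
  obtain ⟨i, ⟨k0, iK, k1⟩, tl, low, ap, (h0 : 0 < h i), s1, s2⟩ := (K0.and ((tl (δ / 2) (by positivity)
    (η / (4 * D * √π)) (by positivity)).and (low.and (ap.and ((hh.eventually self_mem_nhdsWithin).and
      ((sm (α * (|C| + 1) + 2) (δ / 2) (by positivity)).and (sm (|C| + 2) (η / 4) (by positivity)))))))).exists
  set g := fun x => ∫ s, f (x + s) * K i s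
  have ig : ∀ x, Integrable fun s => f (x + s) * K i s := fun x => iK.bdd_mul (c := B)
    (mf.comp_quasiMeasurePreserving (measurePreserving_add_left volume x).quasiMeasurePreserving).aestronglyMeasurable (.of_forall fun _ => bf _)
  have bg : ∀ x, |g x| ≤ B := fun x => by
    refine (norm_integral_le_of_norm_le (f := fun s => f (x + s) * K i s) (iK.const_mul B) (.of_forall fun s => ?_)).trans_eq
      (by rw [integral_const_mul, k1, mul_one])
    rw [norm_mul, Real.norm_of_nonneg (k0 s)]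
    exact mul_le_mul_of_nonneg_right (bf _) (k0 s)
  have pt : ∀ y, m ≤ y → y ≤ M → ∃ ξ y', |ξ - x0| < α * ((|C| + 1) * h i) ∧ |y - y'| < (|C| + 1) * h i ∧
      lo g ξ ≤ y' ∧ y' ≤ up g ξ := fun y a b => by
    obtain ⟨p, hp, d⟩ := Metric.exists_edist_lt_of_hausdorffEDist_lt (x := (α⁻¹ * x0, y)) (s := graph α f)
      (by simpa [graph, α0.ne'] using ⟨a, b⟩) (ap.trans_lt ((ENNReal.ofReal_lt_ofReal_iff (by positivity)).2
        (mul_lt_mul_of_pos_right ((le_abs_self C).trans_lt (lt_add_one _)) h0)))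
    rw [edist_lt_ofReal, Prod.dist_eq, max_lt_iff, Real.dist_eq, Real.dist_eq] at d
    refine ⟨_, _, ?_, d.2, hp⟩
    rw [show α * p.1 - x0 = -α * (α⁻¹ * x0 - p.1) by field_simp; ring, abs_mul, abs_neg, abs_of_pos α0]
    exact mul_lt_mul_of_pos_left d.1 α0
  have nb : ∀ ξ, ∀ᶠ x in 𝓝[≠] ξ, |x - ξ| < h i := fun ξ =>
    mem_nhdsWithin_of_mem_nhds (Metric.ball_mem_nhds ξ h0)
  obtain ⟨x, x1, x2⟩ : ∃ x, |x - x0| + h i ≤ (α * (|C| + 1) + 2) * h i ∧ M - (|C| + 2) * h i ≤ g x := by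
    obtain ⟨ξ, y, a, b, -, d⟩ := pt M (lu.1.trans lu.2) le_rfl
    rw [abs_lt] at b
    rcases le_max_iff.1 d with d | d
    · exact ⟨ξ, by linarith, by linarith⟩
    · obtain ⟨x, p, q⟩ := ((frequently_lt_of_lt_limsup (isCoboundedUnder_le_of_le _ fun x => (abs_le.1 (bg x)).1)
        ((sub_lt_self _ h0).trans_le d)).and_eventually (nb ξ)).exists
      exact ⟨x, by linarith [abs_sub_le x ξ x0], by linarith⟩
  obtain ⟨y, y1, y2⟩ : ∃ x, |x - x0| + h i ≤ (α * (|C| + 1) + 2) * h i ∧ g x ≤ m + (|C| + 2) * h i := by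
    obtain ⟨ξ, y, a, b, d, -⟩ := pt m le_rfl (lu.1.trans lu.2)
    rw [abs_lt] at b
    rcases min_le_iff.1 d with d | d
    · exact ⟨ξ, by linarith, by linarith⟩
    · obtain ⟨x, p, q⟩ := ((frequently_lt_of_liminf_lt (isCoboundedUnder_ge_of_le _ fun x => (abs_le.1 (bg x)).2)
        (d.trans_lt (lt_add_of_pos_right _ h0))).and_eventually (nb ξ)).exists
      exact ⟨x, by linarith [abs_sub_le x ξ x0], by linarith⟩
  have bb := fun t => abs_le.1 (bf t)
  have aM := abs_le.1 (le_refl |M|)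
  have am := abs_le.1 (le_refl |m|)
  have S1 := side (u := fun t => M + η / 4 - f t) (B := D) (by fun_prop) (fun t => abs_le.2 ⟨by
    linarith [bb t, abs_nonneg m], by linarith [bb t, abs_nonneg m]⟩)
    (fun t ht => by linarith [(hδ (y := t) (by rw [Real.dist_eq]; linarith)).2]) k0 iK h0 x1 s1 low tl (by positivity)
  have S2 := side (u := fun t => f t - (m - η / 4)) (B := D) (by fun_prop) (fun t => abs_le.2 ⟨by
    linarith [bb t, abs_nonneg M], by linarith [bb t, abs_nonneg M]⟩)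
    (fun t ht => by linarith [(hδ (y := t) (by rw [Real.dist_eq]; linarith)).1]) k0 iK h0 y1 s1 low tl (by positivity)
  have jf : IntegrableOn f (Icc (x0 - h i) (x0 + h i)) :=
    Measure.integrableOn_of_bounded (M := B) (by simp) mf.aestronglyMeasurable (.of_forall bf)
  have jc : ∀ a : ℝ, IntegrableOn (fun _ => a) (Icc (x0 - h i) (x0 + h i)) := fun a => integrableOn_const (by simp)
  simp only [sub_mul (M + η / 4), sub_mul (f _)] at S1 S2
  rw [integral_sub (jc _) jf, integral_sub (iK.const_mul _) (ig x), integral_const_mul, k1] at S1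
  rw [integral_sub jf (jc _), integral_sub (ig y) (iK.const_mul _), integral_const_mul, k1] at S2
  rw [setIntegral_const, Real.volume_real_Icc_of_le (by linarith), smul_eq_mul,
    show D * (η / (4 * D * √π)) * √π = η / 4 by field_simp] at S1 S2
  have : c / h i * ((x0 + h i - (x0 - h i)) * (M + η / 4) - (x0 + h i - (x0 - h i)) * (m - η / 4)) =
      2 * c * (M - m + η / 2) := by field_simp; ring
  have := mul_pos c0 e
  simp only [g] at x2 y2
  linarith

lemma hs : Tendsto (fun n : ℕ => (√n)⁻¹) atTop (𝓝[>] 0) :=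
  tendsto_inv_atTop_nhdsGT_zero.comp (tendsto_sqrt_atTop.comp tendsto_natCast_atTop_atTop)

lemma sq {n : ℕ} {s A : ℝ} (h : |s| ≤ A * (√n)⁻¹) : s ^ 2 ≤ A ^ 2 / n := by
  simpa [mul_pow, div_eq_mul_inv] using pow_le_pow_left₀ (abs_nonneg _) h 2

lemma geo {q : ℝ} (q0 : 0 ≤ q) (q1 : q < 1) (a : ℝ) {ε : ℝ} (e : 0 < ε) : ∀ᶠ n : ℕ in atTop, a * ((n + 1) * q ^ n) < ε := by
  have := ((tendsto_self_mul_const_pow_of_lt_one q0 q1).add (tendsto_pow_atTop_nhds_zero_of_lt_one q0 q1)).const_mul a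
  exact (this.eventually_lt_const (by simpa)).mono fun n h => by simpa [add_mul] using h

lemma ind {k : ℝ → ℝ} (f : ℝ → ℝ) (x : ℝ) : ∫ s, f (x + s) * (Ioc (-π) π).indicator k s = ∫ s in -π..π, f (x + s) * k s := by
  rw [intervalIntegral.integral_of_le (by linarith [pi_pos]), ← integral_indicator measurableSet_Ioc]
  simp only [indicator_mul_right]

lemma ind0 {k : ℝ → ℝ} (c : Continuous k) (k0 : ∀ s, 0 ≤ k s) (k1 : ∫ s in -π..π, k s = 1) :
    (∀ s, 0 ≤ (Ioc (-π) π).indicator k s) ∧ Integrable ((Ioc (-π) π).indicator k) ∧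
      ∫ s, (Ioc (-π) π).indicator k s = 1 :=
  ⟨indicator_nonneg fun s _ => k0 s, (integrable_indicator_iff measurableSet_Ioc).2 (c.integrableOn_Icc.mono_set
    Ioc_subset_Icc_self), by simpa [k1] using ind (k := k) 1 0⟩

lemma indt {k : ℝ → ℝ} {s ε : ℝ} (e : 0 < ε) (h : |s| ≤ π → exp (π ^ 2) * k s ≤ ε) :
    (Ioc (-π) π).indicator k s ≤ ε * exp (-1 * s ^ 2) := by
  by_cases m : s ∈ Ioc (-π) π
  · have a := abs_le.2 ⟨m.1.le, m.2⟩
    rw [indicator_of_mem m]
    refine ((le_div_iff₀' (exp_pos _)).2 (h a)).trans ?_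
    rw [div_eq_mul_inv, ← exp_neg]
    gcongr
    simpa using sq_le_sq.2 (a.trans (le_abs_self π))
  · rw [indicator_of_notMem m]; positivity

noncomputable def κ (n : ℕ) : ℝ := (n.factorial : ℝ) ^ 2 / (2 * n).factorial * 4 ^ n

lemma κ_succ (n : ℕ) : κ (n + 1) = κ n * ((2 * n + 2) / (2 * n + 1)) := by
  simp only [κ, Nat.mul_succ, Nat.factorial_succ]
  push_cast
  field_simp
  ring

lemma κ_bd (n : ℕ) : κ n * ∏ i ∈ Finset.range n, (2 * (i : ℝ) + 1) / (2 * i + 2) = 1 ∧ 2 * n + 1 ≤ κ n ^ 2 ∧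
    κ n ≤ n + 1 := by
  induction n with
  | zero => simp [κ]
  | succ n ih =>
    obtain ⟨a, b, c⟩ := ih
    rw [κ_succ, Finset.prod_range_succ, mul_pow, div_pow, ← mul_div_assoc, ← mul_div_assoc (κ n ^ 2),
      le_div_iff₀ (by positivity), div_le_iff₀ (by positivity)]
    push_cast
    have : (0 : ℝ) ≤ n := n.cast_nonneg
    refine ⟨Eq.trans (by generalize ∏ i ∈ Finset.range n, (2 * (i : ℝ) + 1) / (2 * i + 2) = q; field_simp) a, ?_, by nlinarith⟩
    nlinarith [mul_le_mul_of_nonneg_right b (sq_nonneg (2 * (n : ℝ) + 2))]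

theorem result (α : ℝ) (α0 : 0 < α) (f : ℝ → ℝ) (mf : AEMeasurable f) (bf : ∃ B, ∀ x, |f x| ≤ B)
    (h : (∃ C, ∀ᶠ n : ℕ in atTop, r α f (W n f) ≤ .ofReal (C / √n)) ∨
      (∃ C, ∀ᶠ ρ in 𝓝[<] 1, r α f (P ρ f) ≤ .ofReal (C * (1 - ρ))) ∨
      (∃ C, ∀ᶠ n : ℕ in atTop, r α f (V n f) ≤ .ofReal (C / √n))) : Continuous f := by
  obtain ⟨B, bf⟩ := bf
  have := pi_pos
  have p1 : 1 / (2 * π) ≤ 1 := (div_le_one (by positivity)).2 (by linarith [pi_gt_three])
  rcases h with ⟨C, h⟩ | ⟨C, h⟩ | ⟨C, h⟩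
  · refine core atTop (fun (n : ℕ) s => √(n / π) * exp (-n * s ^ 2)) _ hs ?_ (fun δ d ε e => ?_) (fun A a => ?_) α0 mf bf
      (C := C) (by simp only [mul_left_comm (f _), integral_const_mul]; exact h)
    · filter_upwards [eventually_gt_atTop 0] with n (hn : 0 < n)
      refine ⟨fun s => by positivity, (integrable_exp_neg_mul_sq (by positivity)).const_mul _, ?_⟩
      rw [integral_const_mul, integral_gaussian, ← sqrt_mul (by positivity), sqrt_eq_one]
      field_simp
    · filter_upwards [geo (exp_pos _).le (exp_lt_one_iff.2 (neg_neg_of_pos (pow_pos d 2))) (exp (δ ^ 2)) e,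
        eventually_ge_atTop 1] with n h (hn : 1 ≤ n) s hs
      have n1 : (1 : ℝ) ≤ n := by exact_mod_cast hn
      have a : √(n / π) ≤ n + 1 := sqrt_le_iff.2 ⟨by positivity, (div_le_self (by positivity)
        (by linarith [pi_gt_three])).trans (by nlinarith)⟩
      refine le_trans ?_ (mul_le_mul_of_nonneg_right h.le (exp_pos _).le)
      rw [← exp_nat_mul, mul_left_comm, mul_assoc, ← exp_add, ← exp_add]
      gcongr
      nlinarith [mul_le_mul_of_nonneg_left (sq_le_sq' (by linarith [abs_nonneg s]) hs) (sub_nonneg.2 n1), sq_abs s]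
    · refine ⟨(√π)⁻¹ * exp (-A ^ 2), by positivity, ?_⟩
      filter_upwards [eventually_gt_atTop 0] with n (hn : 0 < n) s hs
      rw [sqrt_div' _ pi_pos.le, div_eq_mul_inv, mul_assoc, inv_mul_cancel_left₀ (by positivity)]
      gcongr
      have := (le_div_iff₀ (by positivity)).1 (sq hs)
      linarith
  · have I := Ioo_mem_nhdsLT (show (1 / 2 : ℝ) < 1 by norm_num)
    have dn : ∀ ρ ∈ Ioo (1 / 2 : ℝ) 1, ∀ s, 0 < 1 + ρ ^ 2 - 2 * ρ * cos s := fun ρ h s => by
      nlinarith [cos_le_one s, h.1, h.2, sq_pos_of_pos (sub_pos.2 h.2)]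
    have t1 : Tendsto (fun ρ : ℝ => 1 - ρ) (𝓝[<] 1) (𝓝[>] 0) := tendsto_nhdsWithin_iff.2
      ⟨((continuous_sub_left 1).tendsto' 1 0 (by simp)).mono_left nhdsWithin_le_nhds,
        eventually_mem_nhdsWithin.mono fun ρ h => mem_Ioi.2 (sub_pos.2 (mem_Iio.1 h))⟩
    have sm : ∀ a b : ℝ, 0 < b → ∀ᶠ ρ in 𝓝[<] 1, a * (1 - ρ) < b := fun a b b0 =>
      ((t1.mono_right nhdsWithin_le_nhds).const_mul a).eventually_lt_const (by simpa)
    refine core (𝓝[<] 1) (fun ρ => (Ioc (-π) π).indicator fun s =>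
      1 / (2 * π) * ((1 - ρ ^ 2) / (1 + ρ ^ 2 - 2 * ρ * cos s))) _ t1 ?_ (fun δ d ε e => ?_) (fun A a => ?_) α0 mf bf
      (C := C) (by simp only [ind, mul_left_comm (f _), intervalIntegral.integral_const_mul]; exact h)
    · filter_upwards [I] with ρ h
      refine ind0 (by fun_prop (disch := exact fun s => (dn ρ h s).ne'))
        (fun s => mul_nonneg (by positivity) (div_nonneg (by nlinarith [h.1, h.2]) (dn ρ h s).le)) ?_
      have := (differentiable_const (1 : ℂ)).diffContOnCl.circleAverage_poissonKernel_smul' (c := 0) (R := 1) (w := ρ)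
        (by simpa [abs_lt] using ⟨by linarith [h.1], h.2⟩)
      rw [circleAverage_eq_integral_add (-π), intervalIntegral.integral_comp_add_right
        (fun θ => ((‖circleMap 0 1 θ - 0‖ ^ 2 - ‖(ρ : ℂ) - 0‖ ^ 2) / ‖circleMap 0 1 θ - 0 - (ρ - 0)‖ ^ 2) • (1 : ℂ)),
        intervalIntegral.integral_smul_const, smul_smul, ← Complex.ofReal_one, Complex.real_smul,
        ← Complex.ofReal_mul, mul_one, Complex.ofReal_inj] at this
      refine Eq.trans ?_ this
      rw [intervalIntegral.integral_const_mul, one_div, zero_add, show 2 * π + -π = π by ring]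
      congr 2
      ext s
      simp only [sub_zero, norm_circleMap_zero, Complex.norm_real, Real.norm_eq_abs, sq_abs, Complex.sq_norm,
        Complex.normSq_apply, Complex.sub_re, Complex.sub_im, circleMap_zero_re, circleMap_zero_im, Complex.ofReal_re,
        Complex.ofReal_im]
      congr 1
      · nlinarith [sin_sq_add_cos_sq s]
      · nlinarith [sin_sq_add_cos_sq s]
    · filter_upwards [I, sm (exp (π ^ 2) * (2 / (2 / π ^ 2 * δ ^ 2))) ε e] with ρ h q s hs
      refine indt e fun a => le_trans ?_ q.le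
      have : 2 / π ^ 2 * δ ^ 2 ≤ 1 + ρ ^ 2 - 2 * ρ * cos s := by
        have := mul_le_mul_of_nonneg_left (sq_le_sq' (by linarith [abs_nonneg s]) hs) (show 0 ≤ 2 / π ^ 2 by positivity)
        rw [sq_abs] at this
        nlinarith [cos_le_one_sub_mul_cos_sq a, sq_nonneg (1 - ρ),
          mul_nonneg (sub_nonneg.2 h.1.le) (sub_nonneg.2 (cos_le_one s))]
      rw [mul_assoc (exp _), div_mul_eq_mul_div 2 (2 / π ^ 2 * δ ^ 2)]
      refine mul_le_mul_of_nonneg_left ((mul_le_of_le_one_left (div_nonneg (show 0 ≤ 1 - ρ ^ 2 by nlinarith [h.1, h.2])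
        (dn ρ h s).le) p1).trans ?_) (exp_pos _).le
      exact div_le_div₀ (by linarith [h.2]) (by nlinarith [sq_nonneg (1 - ρ)]) (by positivity) this
    · refine ⟨1 / (2 * π) * (1 / (1 + A ^ 2)), by positivity, ?_⟩
      filter_upwards [I, sm A π pi_pos] with ρ h q s hs
      rw [indicator_of_mem (Ioo_subset_Ioc_self (abs_lt.1 (hs.trans_lt q))), mul_left_comm, ← mul_div_assoc (1 - ρ)]
      refine mul_le_mul_of_nonneg_left ?_ (by positivity)
      rw [div_le_div_iff₀ (by positivity) (dn ρ h s)]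
      have := pow_le_pow_left₀ (abs_nonneg _) hs 2
      have b : 0 ≤ (1 - ρ) ^ 2 * ρ * (1 + A ^ 2) := by have := h.1; positivity
      nlinarith [one_sub_sq_div_two_le_cos (x := s), sq_abs s, cos_le_one s, h.2]
  · have k0 : ∀ n, 0 ≤ κ n := fun n => by unfold κ; positivity
    refine core atTop (fun n : ℕ => (Ioc (-π) π).indicator fun s => κ n * (1 / (2 * π) * (cos (s / 2) ^ 2) ^ n)) _ hs
      (.of_forall fun n => ind0 (by fun_prop) (fun s => by have := k0 n; positivity) ?_) (fun δ d ε e => ?_)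
      (fun A a => ?_) α0 mf bf (C := C) (h.mono fun n h => ?_)
    · simp only [intervalIntegral.integral_const_mul, ← pow_mul]
      rw [intervalIntegral.integral_comp_div (fun s => cos s ^ (2 * n)) two_ne_zero]
      simp only [← sin_add_pi_div_two]
      rw [intervalIntegral.integral_comp_add_right (fun s => sin s ^ (2 * n)), show -π / 2 + π / 2 = 0 by ring,
        add_halves, integral_sin_pow_even, smul_eq_mul, ← mul_assoc 2, one_div, inv_mul_cancel_left₀ (by positivity),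
        (κ_bd n).1]
    · by_cases c : π < δ
      · exact .of_forall fun n s hs => indt e fun a => by linarith
      have b : 1 / π ^ 2 * δ ^ 2 ≤ 1 := by
        rw [one_div, inv_mul_le_one₀ (by positivity)]; exact pow_le_pow_left₀ d.le (not_lt.1 c) 2
      filter_upwards [geo (sub_nonneg.2 b) (sub_lt_self 1 (by positivity)) (exp (π ^ 2)) e] with n h s hs
      refine indt e fun a => le_trans (mul_le_mul_of_nonneg_left (mul_le_mul (κ_bd n).2.2
        ((mul_le_of_le_one_left (by positivity) p1).trans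
          (pow_le_pow_left₀ (sq_nonneg _) ?_ n)) (by positivity) (by positivity)) (exp_pos _).le) h.le
      have := mul_le_mul_of_nonneg_left (sq_le_sq' (by linarith [abs_nonneg s]) hs) (show 0 ≤ 1 / π ^ 2 by positivity)
      rw [sq_abs] at this
      rw [cos_sq, mul_div_cancel₀ s two_ne_zero]
      linear_combination cos_le_one_sub_mul_cos_sq a / 2 + this
    · refine ⟨1 / (2 * π) * (exp (-A ^ 2 / 4) / 2), by positivity, ?_⟩
      filter_upwards [(Real.tendsto_one_add_div_pow_exp (-A ^ 2 / 4)).eventually_const_lt (half_lt_self (exp_pos _)),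
        ((hs.mono_right nhdsWithin_le_nhds).const_mul A).eventually_lt_const (show A * 0 < 2 by simp),
        eventually_gt_atTop 0] with n h q (hn : 0 < n) s hs
      rw [indicator_of_mem (Ioo_subset_Ioc_self (abs_lt.1 ((hs.trans_lt q).trans (by linarith [pi_gt_three])))),
        ← mul_assoc]
      refine le_trans ?_ (le_mul_of_one_le_left (by positivity) ((one_le_inv_mul₀ (by positivity)).2 (sqrt_le_iff.2
        ⟨k0 n, by linarith [(κ_bd n).2.1, n.cast_nonneg (α := ℝ)]⟩)))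
      have A4 : A ^ 2 / n ≤ 4 := by
        simpa [mul_pow, div_eq_mul_inv, show (2 : ℝ) ^ 2 = 4 by norm_num] using pow_le_pow_left₀ (by positivity) q.le 2
      refine mul_le_mul_of_nonneg_left (h.le.trans (pow_le_pow_left₀ ?_ ?_ n)) (by positivity)
      · linear_combination A4 / 4
      · rw [cos_sq, mul_div_cancel₀ s two_ne_zero]
        linear_combination one_sub_sq_div_two_le_cos (x := s) / 2 + sq hs / 4
    · refine le_of_eq_of_le (congrArg _ (funext fun x => ?_)) h
      simp only [ind, V, κ, mul_pow, mul_left_comm (f _), intervalIntegral.integral_const_mul, pow_mul]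
      norm_num
      ring

end Pool.Agent.Results.MP_7489b4_an.No
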